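import Mathlib.Data.Multiset.Basic
import Mathlib.GroupTheory.Congruence.Basic
import Mathlib.Algebra.Order.Group.Multiset
import Mathlib.Algebra.Group.Submonoid.Basic
import Mathlib.Tactic.Abel

/-!
# Three equivalent forms of the slice-ribbon conjecture

By Schubert's theorem the monoid of (isotopy classes of oriented) knots under the connected sum is
the free commutative monoid on the set `P` of prime knots, i.e. a knot is a multiset of prime knots.
The involution `K ↦ -K*` is given by an involution `σ` of `P`. The ribbon knots form a submonoid `R`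
which is stable under `σ` and contains `P # (-P*)` for all prime knots `P`. The smoothly slice knots
are the knots `K` such that `K # R'` is ribbon for some ribbon knot `R'` (a standard fact), which is
the definition of `Slice R` below.

Theorem. The slice-ribbon conjecture is equivalent to each of the following assertions.
* If `K # P # (-P*)` is ribbon, where `P` is prime, then `K` is ribbon.
* Let `K` be a slice knot such that no proper nontrivial summand of `K` is slice and such that no
  prime `P` occurs in `K` together with `-P*`. Then `K` is ribbon.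
* There is a homomorphism from the monoid of knots to an abelian group whose kernel is the set of all
  ribbon knots.
-/

set_option autoImplicit false

universe u

namespace Pool.Agent.Results.MP_752436_gt.CancellingPrimePairs

variable {P : Type u}

/-- `R` behaves as the monoid of ribbon knots: `σ` is an involution (`K ↦ -K*` on the prime knots),
`R` is stable under it and contains `p # σ p` for all `p`. -/
structure IsRibbonMonoid (σ : P → P) (R : AddSubmonoid (Multiset P)) : Prop where
  invol : ∀ p, σ (σ p) = p
  map_mem : ∀ k ∈ R, k.map σ ∈ R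
  pair_mem : ∀ p, ({p} + {σ p} : Multiset P) ∈ R

/-- The slice knots: those `k` for which `k # r` is ribbon for some ribbon knot `r`. -/
def Slice (R : AddSubmonoid (Multiset P)) (k : Multiset P) : Prop := ∃ r ∈ R, k + r ∈ R

/-- `k` is a nontrivial slice knot without proper nontrivial slice summands. -/
def IsMinimalSlice (R : AddSubmonoid (Multiset P)) (k : Multiset P) : Prop :=
  k ≠ 0 ∧ Slice R k ∧ ∀ a b, a + b = k → Slice R a → a = 0 ∨ b = 0

/-- `p` and `σ p` do not occur together in `k`. -/
def HasNoPair (σ : P → P) (k : Multiset P) : Prop := ∀ p b, k ≠ {p} + {σ p} + b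

variable {σ : P → P} {R : AddSubmonoid (Multiset P)}

lemma slice_of_mem {k : Multiset P} (h : k ∈ R) : Slice R k := ⟨0, R.zero_mem, by simpa using h⟩

lemma slice_of_add {a b : Multiset P} (ha : Slice R a) (hab : Slice R (a + b)) : Slice R b := by
  obtain ⟨r, hr, har⟩ := ha
  obtain ⟨s, hs, habs⟩ := hab
  refine ⟨a + r + s, R.add_mem har hs, ?_⟩
  have : b + (a + r + s) = (a + b + s) + r := by abel
  rw [this]
  exact R.add_mem habs hr

lemma cancel_pairs (h : ∀ (k : Multiset P) (p : P), k + ({p} + {σ p}) ∈ R → k ∈ R)
    (m k : Multiset P) : k + (m + m.map σ) ∈ R → k ∈ R := by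
  induction m using Multiset.induction_on generalizing k with
  | empty => intro hk; simpa using hk
  | cons p m ih =>
    intro hk
    apply ih
    apply h _ p
    have : k + (m + m.map σ) + ({p} + {σ p}) = k + ((p ::ₘ m) + (p ::ₘ m).map σ) := by
      rw [Multiset.map_cons, ← Multiset.singleton_add, ← Multiset.singleton_add]
      abel
    rw [this]
    exact hk

lemma ribbon_of_minimal (hR : IsRibbonMonoid σ R)
    (h : ∀ k, IsMinimalSlice R k → HasNoPair σ k → k ∈ R) (n : ℕ) :
    ∀ k : Multiset P, k.card ≤ n → Slice R k → k ∈ R := by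
  induction n with
  | zero =>
    intro k hk _
    have : k = 0 := Multiset.card_eq_zero.1 (Nat.le_zero.1 hk)
    rw [this]
    exact R.zero_mem
  | succ n ih =>
    intro k hk hs
    by_cases h0 : k = 0
    · rw [h0]
      exact R.zero_mem
    by_cases hmin : ∀ a b, a + b = k → Slice R a → a = 0 ∨ b = 0
    · by_cases hp : HasNoPair σ k
      · exact h k ⟨h0, hs, hmin⟩ hp
      · simp only [HasNoPair, not_forall, not_not] at hp
        obtain ⟨p, b, hb⟩ := hp
        rcases hmin _ _ hb.symm (slice_of_mem (hR.pair_mem p)) with h1 | h1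
        · exfalso
          have := congrArg Multiset.card h1
          simp at this
        · rw [hb, h1, add_zero]
          exact hR.pair_mem p
    · simp only [not_forall, not_or] at hmin
      obtain ⟨a, b, hab, ha, ha0, hb0⟩ := hmin
      have hb : Slice R b := slice_of_add ha (by rw [hab]; exact hs)
      have hca : 1 ≤ a.card := Multiset.card_pos.2 ha0
      have hcb : 1 ≤ b.card := Multiset.card_pos.2 hb0
      have hc : a.card + b.card = k.card := by rw [← hab, Multiset.card_add]
      rw [← hab]
      exact R.add_mem (ih a (by omega) ha) (ih b (by omega) hb)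

/-- Two knots are equivalent if they become equal after adding ribbon knots. -/
def con (R : AddSubmonoid (Multiset P)) : AddCon (Multiset P) where
  r a b := ∃ r ∈ R, ∃ s ∈ R, a + r = b + s
  iseqv :=
    ⟨fun _ => ⟨0, R.zero_mem, 0, R.zero_mem, rfl⟩,
      fun ⟨r, hr, s, hs, h⟩ => ⟨s, hs, r, hr, h.symm⟩,
      fun {a b c} ⟨r, hr, s, hs, h⟩ ⟨t, ht, u, hu, h'⟩ =>
        ⟨r + t, R.add_mem hr ht, u + s, R.add_mem hu hs, by
          rw [← add_assoc, h, add_right_comm, h', add_assoc]⟩⟩
  add' := fun {a b c d} ⟨r, hr, s, hs, h⟩ ⟨t, ht, u, hu, h'⟩ =>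
    ⟨r + t, R.add_mem hr ht, s + u, R.add_mem hs hu, by
      rw [add_add_add_comm, h, h', add_add_add_comm]⟩

lemma exists_neg (hR : IsRibbonMonoid σ R) (x : (con R).Quotient) :
    ∃ y : (con R).Quotient, y + x = 0 := by
  induction x using AddCon.induction_on with
  | H k =>
    refine ⟨((k.map σ : Multiset P) : (con R).Quotient), ?_⟩
    rw [← AddCon.coe_add, ← AddCon.coe_zero, AddCon.eq]
    refine ⟨0, R.zero_mem, k.map σ + k, ?_, by rw [add_zero, zero_add]⟩
    induction k using Multiset.induction_on with
    | empty => simp
    | cons p m ih =>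
      have : (p ::ₘ m).map σ + (p ::ₘ m) = ({p} + {σ p}) + (m.map σ + m) := by
        rw [Multiset.map_cons, ← Multiset.singleton_add, ← Multiset.singleton_add]
        abel
      rw [this]
      exact R.add_mem (hR.pair_mem p) ih

/-- The group of knots modulo ribbon knots. -/
@[implicit_reducible] noncomputable def grp (hR : IsRibbonMonoid σ R) : AddCommGroup (con R).Quotient :=
  { (inferInstance : AddCommMonoid (con R).Quotient) with
    neg := fun x => Classical.choose (exists_neg hR x)
    zsmul := @zsmulRec _ _ _ ⟨fun x => Classical.choose (exists_neg hR x)⟩ nsmulRec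
    neg_add_cancel := fun x => Classical.choose_spec (exists_neg hR x) }

/-- Let `R` be the monoid of ribbon knots. The slice-ribbon conjecture, i.e. the assertion that all
slice knots are ribbon, is equivalent to the following assertions: (1) if `k # p # σ p` is ribbon,
where `p` is prime, then `k` is ribbon; (2) each minimal slice knot in which no prime `p` occurs
together with `σ p` is ribbon; (3) the ribbon knots are the kernel of a homomorphism to an abelian
group. -/
theorem result (hR : IsRibbonMonoid σ R) :
    ((∀ k, Slice R k → k ∈ R) ↔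
      ∀ (k : Multiset P) (p : P), k + ({p} + {σ p}) ∈ R → k ∈ R) ∧
    ((∀ k, Slice R k → k ∈ R) ↔ ∀ k, IsMinimalSlice R k → HasNoPair σ k → k ∈ R) ∧
    ((∀ k, Slice R k → k ∈ R) ↔
      ∃ (G : Type u) (_ : AddCommGroup G) (φ : Multiset P →+ G), ∀ k, k ∈ R ↔ φ k = 0) := by
  refine ⟨⟨?_, ?_⟩, ⟨?_, ?_⟩, ⟨?_, ?_⟩⟩
  · intro h k p hk
    exact h k ⟨_, hR.pair_mem p, hk⟩
  · rintro h k ⟨r, hr, hkr⟩
    apply cancel_pairs h r k
    rw [← add_assoc]
    exact R.add_mem hkr (hR.map_mem r hr)
  · intro h k hk _
    exact h k hk.2.1
  · intro h k hk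
    exact ribbon_of_minimal hR h _ k le_rfl hk
  · intro h
    refine ⟨(con R).Quotient, grp hR, (con R).mk', fun k => ?_⟩
    have e : (con R).mk' k = 0 ↔ ∃ r ∈ R, ∃ s ∈ R, k + r = 0 + s := by
      rw [← map_zero (con R).mk']
      exact AddCon.eq (con R)
    refine Iff.trans ?_ e.symm
    constructor
    · intro hk
      exact ⟨0, R.zero_mem, k, hk, add_comm _ _⟩
    · rintro ⟨r, hr, s, hs, hrs⟩
      refine h k ⟨r, hr, ?_⟩
      rw [hrs, zero_add]
      exact hs
  · rintro ⟨G, _, φ, hφ⟩ k ⟨r, hr, hkr⟩
    rw [hφ, map_add, (hφ r).1 hr, add_zero] at hkr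
    exact (hφ k).2 hkr

end Pool.Agent.Results.MP_752436_gt.CancellingPrimePairs
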